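import Pool.Agent.helper8.ZDM.CB

/-!
# The `z`-adic determinant of `(1, b)`-forms (MP_16912e_nt): pure integer statement

`ZL`: if `σ ≡ τ (1 + L σ²)` modulo `J` at `2 (b + 1)` points, `J ∣ L ^ K`, and `R` divides
`J ^ (b + 1 - h) L ^ (h (h - 1) / 2)` for all `h ≤ b + 1`, then `R ∣ det (σ ^ a τ ^ c)`.
-/

set_option autoImplicit false

namespace Pool.Agent.helper8.ZDM

open Polynomial

/-- the index set of the `(1, b)`-forms -/
abbrev Idx (b : ℕ) : Type := Fin 2 × Fin (b + 1)

theorem sum_ge (T : Finset ℕ) : T.card * (T.card - 1) ≤ 2 * ∑ x ∈ T, x := by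
  induction T using Finset.induction_on_max with
  | empty => simp
  | insert a s h ih =>
    have ha : a ∉ s := fun h1 => lt_irrefl a (h a h1)
    rw [Finset.card_insert_of_notMem ha, Finset.sum_insert ha]
    have h1 : s.card ≤ a := by
      have h2 : s ⊆ Finset.range a := fun x hx => Finset.mem_range.2 (h x hx)
      have h3 := Finset.card_le_card h2
      rwa [Finset.card_range] at h3
    rcases Nat.eq_zero_or_pos s.card with h2 | h2
    · rw [h2]; simp
    · obtain ⟨m, hm⟩ : ∃ m, s.card = m + 1 := ⟨s.card - 1, by omega⟩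
      rw [hm] at ih h1 ⊢
      simp only [Nat.add_sub_cancel] at ih ⊢
      nlinarith

theorem sum_ge' {α : Type*} (H : Finset α) (f : α → ℕ) (hf : Set.InjOn f H) :
    H.card * (H.card - 1) ≤ 2 * ∑ c ∈ H, f c := by
  have h1 := sum_ge (H.image f)
  rwa [Finset.card_image_of_injOn hf, Finset.sum_image hf] at h1

/-- the approximations `ψ_{r+1} = 1 + Y ψ_r²` -/
noncomputable def psi : ℕ → ℤ[X]
  | 0 => 0
  | r + 1 => 1 + X * psi r ^ 2

/-- `φ_r = τ ψ_r(L τ²)` approximates `σ` -/
theorem psi_approx (L J σ τ : ℤ) (h : J ∣ τ * (1 + L * σ ^ 2) - σ) (r : ℕ) :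
    ∃ x y : ℤ, σ - τ * (psi r).eval (L * τ ^ 2) = J * x + L ^ r * y := by
  induction r with
  | zero => exact ⟨0, σ, by simp [psi]⟩
  | succ r ih =>
    obtain ⟨x, y, hxy⟩ := ih
    obtain ⟨w, hw⟩ := h
    set p := (psi r).eval (L * τ ^ 2) with hp
    have h1 : (psi (r + 1)).eval (L * τ ^ 2) = 1 + (L * τ ^ 2) * p ^ 2 := by
      simp [psi, hp]
    refine ⟨τ * L * (σ + τ * p) * x - w, τ * (σ + τ * p) * y, ?_⟩
    rw [h1, pow_succ]
    linear_combination (τ * L * (σ + τ * p)) * hxy - hw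

theorem psi_dvd (L J σ τ : ℤ) (K : ℕ) (hK : J ∣ L ^ K) (h : J ∣ τ * (1 + L * σ ^ 2) - σ) :
    ∃ r : ℤ, σ = τ * (psi K).eval (L * τ ^ 2) + J * r := by
  obtain ⟨x, y, hxy⟩ := psi_approx L J σ τ h K
  obtain ⟨z, hz⟩ := hK
  refine ⟨x + z * y, ?_⟩
  rw [hz] at hxy
  linear_combination hxy

/-- the entries of the second factor -/
noncomputable def Bm (b T K : ℕ) (L J : ℤ) : Matrix (Fin T ⊕ Fin (b + 1)) (Idx b) ℤ :=
  Matrix.of fun s c =>
    match s with
    | Sum.inl i =>
      if c.1 = 0 then (if (i : ℕ) = c.2 then 1 else 0)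
      else (if (c.2 : ℕ) + 1 ≤ i ∧ 2 ∣ (i : ℕ) - (c.2 + 1) then
        (psi K).coeff (((i : ℕ) - (c.2 + 1)) / 2) * L ^ (((i : ℕ) - (c.2 + 1)) / 2) else 0)
    | Sum.inr d => if c.1 = 0 then 0 else (if d = c.2 then J else 0)

theorem Bm_prod (b T K : ℕ) (L J R : ℤ)
    (hR : ∀ h : ℕ, h ≤ b + 1 → R ∣ J ^ (b + 1 - h) * L ^ (h * (h - 1) / 2))
    (e : Idx b → Fin T ⊕ Fin (b + 1)) (he : Function.Injective e) :
    R ∣ ∏ c : Idx b, Bm b T K L J (e c) c := by
  classical
  by_cases h0 : ∃ c, Bm b T K L J (e c) c = 0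
  · obtain ⟨c, hc⟩ := h0
    have h1 : ∏ c : Idx b, Bm b T K L J (e c) c = 0 :=
      Finset.prod_eq_zero (Finset.mem_univ c) hc
    rw [h1]
    exact dvd_zero _
  push Not at h0
  -- the columns `(0, c)`
  have e0 : ∀ c : Fin (b + 1), ∃ i : Fin T, e (0, c) = Sum.inl i ∧ (i : ℕ) = c := by
    intro c
    have h1 := h0 (0, c)
    rcases h2 : e (0, c) with i | d
    · refine ⟨i, rfl, ?_⟩
      rw [h2] at h1
      by_contra h3
      apply h1
      simp [Bm, h3]
    · rw [h2] at h1
      exfalso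
      apply h1
      simp [Bm]
  -- the columns `(1, c)`
  have e1 : ∀ c : Fin (b + 1), (e (1, c) = Sum.inr c) ∨
      ∃ (i : Fin T) (m : ℕ), e (1, c) = Sum.inl i ∧ (i : ℕ) = c + 1 + 2 * m ∧ b + 1 ≤ (i : ℕ) ∧
        L ^ m ∣ Bm b T K L J (e (1, c)) (1, c) := by
    intro c
    have h1 := h0 (1, c)
    rcases h2 : e (1, c) with i | d
    · right
      rw [h2] at h1
      have h3 : (c : ℕ) + 1 ≤ i ∧ 2 ∣ (i : ℕ) - (c + 1) := by
        by_contra h3
        apply h1
        simp only [Bm, Matrix.of_apply, one_ne_zero, if_false]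
        rw [if_neg h3]
      obtain ⟨h4, m, hm⟩ := h3
      refine ⟨i, m, rfl, by omega, ?_, ?_⟩
      · by_contra h5
        have h6 : (i : ℕ) < b + 1 := by omega
        obtain ⟨i', hi', hi''⟩ := e0 ⟨i, h6⟩
        have h7 : i' = i := Fin.ext hi''
        rw [h7, ← h2] at hi'
        have h8 := he hi'
        simp at h8
      · have h5 : ((i : ℕ) - (c + 1)) / 2 = m := by omega
        simp only [Bm, Matrix.of_apply, one_ne_zero, if_false]
        rw [if_pos ⟨h4, m, hm⟩, h5]
        exact Dvd.intro_left _ rfl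
    · left
      rw [h2] at h1
      by_contra h3
      apply h1
      have h4 : d ≠ c := by
        intro h5
        apply h3
        rw [h5]
      simp [Bm, h4]
  set H : Finset (Fin (b + 1)) := Finset.univ.filter (fun c => e (1, c) ≠ Sum.inr c) with hH
  have e2 : ∀ c : Fin (b + 1), ∃ (i m : ℕ), c ∈ H → (∃ i' : Fin T, e (1, c) = Sum.inl i' ∧
      (i' : ℕ) = i) ∧ i = c + 1 + 2 * m ∧ b + 1 ≤ i ∧ L ^ m ∣ Bm b T K L J (e (1, c)) (1, c) := by
    intro c
    rcases e1 c with h1 | ⟨i, m, h1, h2, h3, h4⟩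
    · refine ⟨0, 0, fun hc => ?_⟩
      rw [hH, Finset.mem_filter] at hc
      exact absurd h1 hc.2
    · exact ⟨i, m, fun _ => ⟨⟨i, h1, rfl⟩, h2, h3, h4⟩⟩
  choose i m him using e2
  have hinj : Set.InjOn i H := by
    intro c hc c' hc' hcc
    obtain ⟨⟨j, hj, hj'⟩, -⟩ := him c hc
    obtain ⟨⟨j', hj1, hj1'⟩, -⟩ := him c' hc'
    have h1 : j = j' := Fin.ext (by rw [hj', hj1', hcc])
    rw [h1, ← hj1] at hj
    have h2 := he hj
    simpa using h2
  have hS1 := sum_ge' H (fun c => i c - (b + 1)) (by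
    intro c hc c' hc' hcc
    apply hinj hc hc'
    have h1 := (him c hc).2.2.1
    have h2 := (him c' hc').2.2.1
    simp only at hcc
    omega)
  have hS2 := sum_ge' H (fun c => b - (c : ℕ)) (by
    intro c _ c' _ hcc
    apply Fin.ext
    have h1 := c.2
    have h2 := c'.2
    simp only at hcc
    omega)
  have hS3 : ∑ c ∈ H, (i c - (b + 1)) + ∑ c ∈ H, (b - (c : ℕ)) = 2 * ∑ c ∈ H, m c := by
    rw [← Finset.sum_add_distrib, Finset.mul_sum]
    apply Finset.sum_congr rfl
    intro c hc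
    obtain ⟨-, h1, h2, -⟩ := him c hc
    have h3 := c.2
    omega
  have hexp : H.card * (H.card - 1) / 2 ≤ ∑ c ∈ H, m c := by omega
  have hcard : H.card ≤ b + 1 := by
    have h1 := Finset.card_le_univ H
    rwa [Fintype.card_fin] at h1
  refine dvd_trans (hR H.card hcard) ?_
  have hprod : ∏ c : Idx b, Bm b T K L J (e c) c =
      (∏ c : Fin (b + 1), Bm b T K L J (e (0, c)) (0, c)) *
        ((∏ c ∈ H, Bm b T K L J (e (1, c)) (1, c)) *
          ∏ c ∈ Finset.univ.filter (fun c => ¬ (e (1, c) ≠ Sum.inr c)),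
            Bm b T K L J (e (1, c)) (1, c)) := by
    rw [Fintype.prod_prod_type, Fin.prod_univ_two, hH,
      Finset.prod_filter_mul_prod_filter_not]
  rw [hprod]
  apply Dvd.dvd.mul_left
  rw [mul_comm]
  apply mul_dvd_mul
  · refine dvd_trans (pow_dvd_pow L hexp) ?_
    rw [← Finset.prod_pow_eq_pow_sum]
    apply Finset.prod_dvd_prod_of_dvd
    intro c hc
    exact (him c hc).2.2.2
  · have h1 : ∏ c ∈ Finset.univ.filter (fun c => ¬ (e (1, c) ≠ Sum.inr c)),
        Bm b T K L J (e (1, c)) (1, c) =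
        ∏ _c ∈ Finset.univ.filter (fun c : Fin (b + 1) => ¬ (e (1, c) ≠ Sum.inr c)), J := by
      apply Finset.prod_congr rfl
      intro c hc
      rw [Finset.mem_filter, not_not] at hc
      rw [hc.2]
      simp [Bm]
    have h2 : H.card + (Finset.univ.filter
        (fun c : Fin (b + 1) => ¬ (e (1, c) ≠ Sum.inr c))).card = b + 1 := by
      rw [hH, Finset.card_filter_add_card_filter_not, Finset.card_univ, Fintype.card_fin]
    rw [h1, Finset.prod_const]
    exact pow_dvd_pow J (by omega)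

theorem Bm_det (b T K : ℕ) (L J R : ℤ)
    (hR : ∀ h : ℕ, h ≤ b + 1 → R ∣ J ^ (b + 1 - h) * L ^ (h * (h - 1) / 2))
    (A : Matrix (Idx b) (Fin T ⊕ Fin (b + 1)) ℤ) : R ∣ (A * Bm b T K L J).det := by
  classical
  rw [det_mul_expand]
  apply Finset.dvd_sum
  intro f _
  apply Dvd.dvd.mul_left
  by_cases hf : Function.Injective f
  · rw [Matrix.det_apply]
    apply Finset.dvd_sum
    intro s _
    rw [Units.smul_def, zsmul_eq_mul]
    apply Dvd.dvd.mul_left
    exact Bm_prod b T K L J R hR (fun c => f (s c)) (hf.comp s.injective)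
  · rw [Function.not_injective_iff] at hf
    obtain ⟨x, y, hxy, hne⟩ := hf
    rw [Matrix.det_zero_of_row_eq hne]
    · exact dvd_zero _
    · ext j
      rw [Matrix.of_apply, Matrix.of_apply, hxy]

/-- the pure integer statement -/
theorem ZL (b K : ℕ) (L J R : ℤ) (hK : J ∣ L ^ K)
    (hR : ∀ h : ℕ, h ≤ b + 1 → R ∣ J ^ (b + 1 - h) * L ^ (h * (h - 1) / 2))
    (σ τ : Idx b → ℤ) (h : ∀ i, J ∣ τ i * (1 + L * σ i ^ 2) - σ i) :
    R ∣ (Matrix.of (fun (i : Idx b) (c : Idx b) => σ i ^ (c.1 : ℕ) * τ i ^ (c.2 : ℕ))).det := by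
  classical
  choose r hr using fun i => psi_dvd L J (σ i) (τ i) K hK (h i)
  set N := (psi K).natDegree + 1 with hN
  set T := 2 * N + b + 2 with hT
  set A : Matrix (Idx b) (Fin T ⊕ Fin (b + 1)) ℤ := Matrix.of fun i s =>
    match s with
    | Sum.inl k => τ i ^ (k : ℕ)
    | Sum.inr c => r i * τ i ^ (c : ℕ) with hA
  have key : (Matrix.of (fun (i : Idx b) (c : Idx b) => σ i ^ (c.1 : ℕ) * τ i ^ (c.2 : ℕ))) =
      A * Bm b T K L J := by
    ext i ⟨a, c⟩
    rw [Matrix.mul_apply, Fintype.sum_sum_type, Matrix.of_apply]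
    have ha : a = 0 ∨ a = 1 := by
      rcases a with ⟨a, ha⟩
      have : a = 0 ∨ a = 1 := by omega
      rcases this with rfl | rfl
      · left; rfl
      · right; rfl
    rcases ha with rfl | rfl
    · have e1 : ∀ k : Fin T, A i (Sum.inl k) * Bm b T K L J (Sum.inl k) (0, c) =
          if (k : ℕ) = c then τ i ^ (c : ℕ) else 0 := by
        intro k
        simp only [hA, Bm, Matrix.of_apply, if_true]
        by_cases hk : (k : ℕ) = c
        · rw [if_pos hk, if_pos hk, hk, mul_one]
        · rw [if_neg hk, if_neg hk, mul_zero]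
      have e2 : ∀ d : Fin (b + 1), A i (Sum.inr d) * Bm b T K L J (Sum.inr d) (0, c) = 0 := by
        intro d
        simp [hA, Bm]
      rw [Finset.sum_congr rfl (fun k _ => e1 k), Finset.sum_congr rfl (fun d _ => e2 d),
        Finset.sum_const_zero, add_zero,
        Fin.sum_univ_eq_sum_range (fun k => if k = (c : ℕ) then τ i ^ (c : ℕ) else 0) T,
        Finset.sum_ite_eq' (Finset.range T) (c : ℕ)]
      have hc := c.2
      rw [if_pos (Finset.mem_range.2 (by omega))]
      simp
    · have e2 : ∀ d : Fin (b + 1), A i (Sum.inr d) * Bm b T K L J (Sum.inr d) (1, c) =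
          if d = c then J * r i * τ i ^ (c : ℕ) else 0 := by
        intro d
        simp only [hA, Bm, Matrix.of_apply, one_ne_zero, if_false]
        by_cases hd : d = c
        · rw [if_pos hd, if_pos hd, hd]
          ring
        · rw [if_neg hd, if_neg hd, mul_zero]
      set F : ℕ → ℤ := fun k => τ i ^ k * (if (c : ℕ) + 1 ≤ k ∧ 2 ∣ k - (c + 1) then
        (psi K).coeff ((k - (c + 1)) / 2) * L ^ ((k - (c + 1)) / 2) else 0) with hF
      have e1 : ∀ k : Fin T, A i (Sum.inl k) * Bm b T K L J (Sum.inl k) (1, c) = F k := by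
        intro k
        simp only [hA, Bm, Matrix.of_apply, one_ne_zero, if_false, hF]
      rw [Finset.sum_congr rfl (fun k _ => e1 k), Finset.sum_congr rfl (fun d _ => e2 d),
        Fin.sum_univ_eq_sum_range F T, Finset.sum_ite_eq' Finset.univ c,
        if_pos (Finset.mem_univ _)]
      have e3 : ∑ k ∈ Finset.range T, F k =
          ∑ k ∈ (Finset.range N).image (fun m => (c : ℕ) + 1 + 2 * m), F k := by
        symm
        apply Finset.sum_subset
        · intro k hk
          rw [Finset.mem_image] at hk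
          obtain ⟨m, hm, rfl⟩ := hk
          rw [Finset.mem_range] at hm ⊢
          have hc := c.2
          omega
        · intro k _ hk
          simp only [hF]
          by_cases h1 : (c : ℕ) + 1 ≤ k ∧ 2 ∣ k - (c + 1)
          · rw [if_pos h1]
            obtain ⟨h2, m, hm⟩ := h1
            have h3 : (k - ((c : ℕ) + 1)) / 2 = m := by omega
            rw [h3]
            have h4 : N ≤ m := by
              by_contra h5
              apply hk
              rw [Finset.mem_image]
              exact ⟨m, Finset.mem_range.2 (by omega), by omega⟩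
            rw [Polynomial.coeff_eq_zero_of_natDegree_lt (by omega)]
            ring
          · rw [if_neg h1, mul_zero]
      rw [e3, Finset.sum_image (by
        intro x _ y _ hxy
        simp only at hxy
        omega)]
      have e4 : ∀ m ∈ Finset.range N, F ((c : ℕ) + 1 + 2 * m) =
          τ i ^ (c : ℕ) * (τ i * ((psi K).coeff m * (L * τ i ^ 2) ^ m)) := by
        intro m _
        simp only [hF]
        have h1 : (c : ℕ) + 1 + 2 * m - (c + 1) = 2 * m := by omega
        rw [h1, if_pos ⟨by omega, Dvd.intro _ rfl⟩, Nat.mul_div_cancel_left m (by norm_num)]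
        rw [mul_pow, ← pow_mul, pow_add, pow_add, pow_one]
        ring
      rw [Finset.sum_congr rfl e4, ← Finset.mul_sum, ← Finset.mul_sum,
        ← Polynomial.eval_eq_sum_range]
      have e5 := hr i
      have e6 : σ i ^ ((1 : Fin 2) : ℕ) = σ i := by
        rw [Fin.val_one, pow_one]
      simp only [e6]
      linear_combination (τ i ^ (c : ℕ)) * e5
  rw [key]
  exact Bm_det b T K L J R hR A

end Pool.Agent.helper8.ZDM
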