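import Mathlib

/-!
# Divisibility of the determinant of a product with weighted middle index (MP_16912e_nt)
-/

set_option autoImplicit false

namespace Pool.Agent.helper8.ZDM

open Matrix

/-- Cauchy and Binet in the form of a sum over all maps -/
theorem det_mul_expand {R ι S : Type*} [CommRing R] [Fintype ι] [DecidableEq ι] [Fintype S]
    (A : Matrix ι S R) (B : Matrix S ι R) :
    (A * B).det = ∑ f : ι → S, (∏ i, A i (f i)) * (Matrix.of (fun i j => B (f i) j)).det := by
  classical
  have h1 : (A * B).det = Matrix.detRowAlternating (fun i => ∑ s, A i s • B s) := by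
    have h2 : (A * B) = Matrix.of (fun i => ∑ s, A i s • B s) := by
      ext i j
      rw [Matrix.mul_apply, Matrix.of_apply, Finset.sum_apply]
      apply Finset.sum_congr rfl
      intro s _
      rw [Pi.smul_apply, smul_eq_mul]
    rw [h2]
    rfl
  rw [h1, ← AlternatingMap.coe_multilinearMap, MultilinearMap.map_sum]
  apply Finset.sum_congr rfl
  intro f _
  rw [MultilinearMap.map_smul_univ, smul_eq_mul]
  rfl

/-- if row `s` of `B` is divisible by `w s`, then the products over injective maps control the
divisibility of `det (A * B)` -/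
theorem det_mul_dvd {R ι S : Type*} [CommRing R] [Fintype ι] [DecidableEq ι] [Fintype S]
    (A : Matrix ι S R) (B : Matrix S ι R) (w : S → R) (hw : ∀ s j, w s ∣ B s j) (W : R)
    (hW : ∀ f : ι → S, Function.Injective f → W ∣ ∏ i, w (f i)) : W ∣ (A * B).det := by
  classical
  rw [det_mul_expand]
  apply Finset.dvd_sum
  intro f _
  apply Dvd.dvd.mul_left
  by_cases hf : Function.Injective f
  · refine dvd_trans (hW f hf) ?_
    choose C hC using hw
    have h1 : (Matrix.of (fun i j => B (f i) j)) =
        Matrix.of (fun i j => w (f i) * C (f i) j) := by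
      ext i j
      rw [Matrix.of_apply, Matrix.of_apply, hC]
    rw [h1]
    have h2 := Matrix.det_mul_column (fun i => w (f i)) (Matrix.of (fun i j => C (f i) j))
    have h3 : (Matrix.of (fun i j => w (f i) * C (f i) j)) =
        Matrix.of (fun i j => w (f i) * (Matrix.of (fun i j => C (f i) j)) i j) := rfl
    rw [h3, h2]
    exact Dvd.intro _ rfl
  · rw [Function.not_injective_iff] at hf
    obtain ⟨a, b, hab, hne⟩ := hf
    rw [Matrix.det_zero_of_row_eq hne]
    · exact dvd_zero _
    · ext j
      rw [Matrix.of_apply, Matrix.of_apply, hab]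

end Pool.Agent.helper8.ZDM
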