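import Mathlib

/-!
# The `z`-adic determinant of four points (MP_16912e_nt)

`wd x y = x₁ y₂ - x₂ y₁`; the `4 × 4` determinant of the tensors `(g, n) ⊗ (u, v)` is
`W(1,2) W(3,4) W'(1,3) W'(2,4) - W(1,3) W(2,4) W'(1,2) W'(3,4)`.
-/

set_option autoImplicit false

namespace Pool.Agent.helper8.ZDM

/-- the determinant of four tensors, expressed by the `2 × 2` minors -/
def D4 (g n u v : Fin 4 → ℤ) : ℤ :=
  (g 0 * n 1 - n 0 * g 1) * (g 2 * n 3 - n 2 * g 3) *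
      ((u 0 * v 2 - v 0 * u 2) * (u 1 * v 3 - v 1 * u 3)) -
    (g 0 * n 2 - n 0 * g 2) * (g 1 * n 3 - n 1 * g 3) *
      ((u 0 * v 1 - v 0 * u 1) * (u 2 * v 3 - v 2 * u 3))

theorem D4_eq_det (g n u v : Fin 4 → ℤ) :
    D4 g n u v = - Matrix.det (Matrix.of (fun i : Fin 4 =>
      ![g i * u i, g i * v i, n i * u i, n i * v i])) := by
  unfold D4
  rw [Matrix.det_succ_row_zero]
  simp only [Matrix.det_fin_three, Fin.sum_univ_four, Matrix.submatrix_apply, Matrix.of_apply,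
    Fin.succAbove, Matrix.cons_val_zero, Matrix.cons_val_one, Matrix.cons_val]
  simp [Fin.succAbove, Fin.lt_def]
  ring

/-- divisibility by `k ^ 6` -/
theorem D4_dvd_k (g n u v : Fin 4 → ℤ) (k : ℤ) (h1 : ∀ i j, k ∣ g i * n j - n i * g j)
    (h2 : ∀ i j, k ^ 2 ∣ u i * v j - v i * u j) : k ^ 6 ∣ D4 g n u v := by
  unfold D4
  obtain ⟨a, ha⟩ := h1 0 1
  obtain ⟨b, hb⟩ := h1 2 3
  obtain ⟨c, hc⟩ := h1 0 2
  obtain ⟨d, hd⟩ := h1 1 3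
  obtain ⟨a', ha'⟩ := h2 0 2
  obtain ⟨b', hb'⟩ := h2 1 3
  obtain ⟨c', hc'⟩ := h2 0 1
  obtain ⟨d', hd'⟩ := h2 2 3
  rw [ha, hb, hc, hd, ha', hb', hc', hd']
  exact ⟨a * b * (a' * b') - c * d * (c' * d'), by ring⟩

/-- divisibility by `Q ^ 3 z ^ d` -/
theorem D4_dvd_z (g n u v : Fin 4 → ℤ) (z₁ z₂ F Z Q : ℤ)
    (hF : ∀ i, v i * (z₂ * g i ^ 2 + z₁ * n i ^ 2) - 2 * u i * g i * n i = Z * F)
    (hQ : ∀ i j, Q ∣ g i * n j - n i * g j) (hQZ : Q ∣ Z) (hZQ : Z ∣ Q ^ 3 * (z₁ * z₂)) :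
    Q ^ 3 * Z ∣ (z₂ * g 0 ^ 2 + z₁ * n 0 ^ 2) * (z₂ * g 1 ^ 2 + z₁ * n 1 ^ 2) *
      (z₂ * g 2 ^ 2 + z₁ * n 2 ^ 2) * (z₂ * g 3 ^ 2 + z₁ * n 3 ^ 2) * D4 g n u v := by
  obtain ⟨a01, h01⟩ := hQ 0 1
  obtain ⟨a02, h02⟩ := hQ 0 2
  obtain ⟨a03, h03⟩ := hQ 0 3
  obtain ⟨a12, h12⟩ := hQ 1 2
  obtain ⟨a13, h13⟩ := hQ 1 3
  obtain ⟨a23, h23⟩ := hQ 2 3
  obtain ⟨R, hR⟩ := hQZ
  obtain ⟨T, hT⟩ := hZQ
  have key : ∀ i j, (z₂ * g i ^ 2 + z₁ * n i ^ 2) * (z₂ * g j ^ 2 + z₁ * n j ^ 2) *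
      (u i * v j - v i * u j) = 2 * u i * u j * (g i * n j - n i * g j) *
        (z₂ * g i * g j - z₁ * n i * n j) + Z * (F * ((z₂ * g i ^ 2 + z₁ * n i ^ 2) * u i -
          (z₂ * g j ^ 2 + z₁ * n j ^ 2) * u j)) := by
    intro i j
    linear_combination (z₂ * g i ^ 2 + z₁ * n i ^ 2) * u i * hF j -
      (z₂ * g j ^ 2 + z₁ * n j ^ 2) * u j * hF i
  obtain ⟨E, hE⟩ : ∃ E : Fin 4 → ℤ, ∀ i, z₂ * g i ^ 2 + z₁ * n i ^ 2 = E i := ⟨_, fun _ => rfl⟩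
  simp only [hE] at key ⊢
  have k02 := key 0 2
  have k13 := key 1 3
  have k01 := key 0 1
  have k23 := key 2 3
  rw [h01] at k01
  rw [h02] at k02
  rw [h13] at k13
  rw [h23] at k23
  have hpl : (z₂ * g 0 * g 2 - z₁ * n 0 * n 2) * (z₂ * g 1 * g 3 - z₁ * n 1 * n 3) -
      (z₂ * g 0 * g 1 - z₁ * n 0 * n 1) * (z₂ * g 2 * g 3 - z₁ * n 2 * n 3) =
        z₁ * z₂ * (Q * a03) * (Q * a12) := by
    rw [← h03, ← h12]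
    ring
  obtain ⟨P02, hP02⟩ : ∃ x, x = z₂ * g 0 * g 2 - z₁ * n 0 * n 2 := ⟨_, rfl⟩
  obtain ⟨P13, hP13⟩ : ∃ x, x = z₂ * g 1 * g 3 - z₁ * n 1 * n 3 := ⟨_, rfl⟩
  obtain ⟨P01, hP01⟩ : ∃ x, x = z₂ * g 0 * g 1 - z₁ * n 0 * n 1 := ⟨_, rfl⟩
  obtain ⟨P23, hP23⟩ : ∃ x, x = z₂ * g 2 * g 3 - z₁ * n 2 * n 3 := ⟨_, rfl⟩
  rw [← hP02, ← hP13, ← hP01, ← hP23] at hpl
  rw [← hP02] at k02
  rw [← hP13] at k13
  rw [← hP01] at k01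
  rw [← hP23] at k23
  obtain ⟨R02, hR02⟩ : ∃ x, x = F * (E 0 * u 0 - E 2 * u 2) := ⟨_, rfl⟩
  obtain ⟨R13, hR13⟩ : ∃ x, x = F * (E 1 * u 1 - E 3 * u 3) := ⟨_, rfl⟩
  obtain ⟨R01, hR01⟩ : ∃ x, x = F * (E 0 * u 0 - E 1 * u 1) := ⟨_, rfl⟩
  obtain ⟨R23, hR23⟩ : ∃ x, x = F * (E 2 * u 2 - E 3 * u 3) := ⟨_, rfl⟩
  rw [← hR02] at k02
  rw [← hR13] at k13
  rw [← hR01] at k01
  rw [← hR23] at k23
  have main : E 0 * E 1 * E 2 * E 3 * D4 g n u v =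
      Q * a01 * (Q * a23) * ((2 * u 0 * u 2 * (Q * a02) * P02 + Z * R02) *
        (2 * u 1 * u 3 * (Q * a13) * P13 + Z * R13)) -
      Q * a02 * (Q * a13) * ((2 * u 0 * u 1 * (Q * a01) * P01 + Z * R01) *
        (2 * u 2 * u 3 * (Q * a23) * P23 + Z * R23)) := by
    rw [← k02, ← k13, ← k01, ← k23]
    unfold D4
    rw [h01, h23, h02, h13]
    ring
  rw [main]
  have e1 : Q * a01 * (Q * a23) * ((2 * u 0 * u 2 * (Q * a02) * P02 + Z * R02) *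
        (2 * u 1 * u 3 * (Q * a13) * P13 + Z * R13)) -
      Q * a02 * (Q * a13) * ((2 * u 0 * u 1 * (Q * a01) * P01 + Z * R01) *
        (2 * u 2 * u 3 * (Q * a23) * P23 + Z * R23)) =
      4 * u 0 * u 1 * u 2 * u 3 * a01 * a23 * a02 * a13 * Q ^ 4 *
        (P02 * P13 - P01 * P23) + Q ^ 3 * Z * (a01 * a23 * (2 * u 0 * u 2 * a02 * P02 * R13 +
          2 * u 1 * u 3 * a13 * P13 * R02) - a02 * a13 * (2 * u 0 * u 1 * a01 * P01 * R23 +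
          2 * u 2 * u 3 * a23 * P23 * R01)) + Q ^ 2 * Z * Z * (a01 * a23 * R02 * R13 -
          a02 * a13 * R01 * R23) := by
    ring
  rw [e1, hpl]
  apply Dvd.dvd.add
  · apply Dvd.dvd.add
    · refine ⟨T * (4 * u 0 * u 1 * u 2 * u 3 * a01 * a23 * a02 * a13 * a03 * a12), ?_⟩
      linear_combination (4 * u 0 * u 1 * u 2 * u 3 * a01 * a23 * a02 * a13 * a03 * a12 * Q ^ 3) * hT
    · exact Dvd.intro _ rfl
  · refine ⟨R * (a01 * a23 * R02 * R13 - a02 * a13 * R01 * R23), ?_⟩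
    have e2 : Q ^ 2 * Z * Z = Q ^ 3 * Z * R := by
      linear_combination Q ^ 2 * Z * hR
    rw [e2]
    ring

end Pool.Agent.helper8.ZDM
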