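import Pool.Agent.helper8.ZDM.Det

/-!
# Vanishing of the determinant of four points (MP_16912e_nt)
-/

set_option autoImplicit false

namespace Pool.Agent.helper8.ZDM

/-- the determinant of four points of one class vanishes -/
theorem D4_eq_zero (g n u v : Fin 4 → ℤ) (z₁ z₂ F Z Q k : ℤ)
    (hF : ∀ i, v i * (z₂ * g i ^ 2 + z₁ * n i ^ 2) - 2 * u i * g i * n i = Z * F)
    (hQ : ∀ i j, Q ∣ g i * n j - n i * g j) (hQZ : Q ∣ Z) (hZQ : Z ∣ Q ^ 3 * (z₁ * z₂))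
    (hE : ∀ i, IsCoprime (z₂ * g i ^ 2 + z₁ * n i ^ 2) Z)
    (h1 : ∀ i j, k ∣ g i * n j - n i * g j)
    (h2 : ∀ i j, k ^ 2 ∣ u i * v j - v i * u j) (hkZ : IsCoprime k Z)
    (hs : |D4 g n u v| < k ^ 6 * (Q ^ 3 * Z)) : D4 g n u v = 0 := by
  have d1 := D4_dvd_k g n u v k h1 h2
  have d2 := D4_dvd_z g n u v z₁ z₂ F Z Q hF hQ hQZ hZQ
  have c1 : ∀ x : ℤ, IsCoprime x Z → IsCoprime x (Q ^ 3 * Z) := fun x hx =>
    IsCoprime.mul_right (IsCoprime.pow_right (IsCoprime.of_isCoprime_of_dvd_right hx hQZ)) hx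
  have c2 : IsCoprime (Q ^ 3 * Z) ((z₂ * g 0 ^ 2 + z₁ * n 0 ^ 2) * (z₂ * g 1 ^ 2 + z₁ * n 1 ^ 2) *
      (z₂ * g 2 ^ 2 + z₁ * n 2 ^ 2) * (z₂ * g 3 ^ 2 + z₁ * n 3 ^ 2)) :=
    ((((c1 _ (hE 0)).mul_left (c1 _ (hE 1))).mul_left (c1 _ (hE 2))).mul_left (c1 _ (hE 3))).symm
  have d3 : Q ^ 3 * Z ∣ D4 g n u v := c2.dvd_of_dvd_mul_left d2
  have d4 : k ^ 6 * (Q ^ 3 * Z) ∣ D4 g n u v :=
    IsCoprime.mul_dvd (IsCoprime.pow_left (c1 _ hkZ)) d1 d3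
  exact Int.eq_zero_of_abs_lt_dvd d4 hs

/-- the size of the determinant -/
theorem D4_size (g n u v : Fin 4 → ℤ) (A B : ℝ)
    (h1 : ∀ i j, |((g i * n j - n i * g j : ℤ) : ℝ)| ≤ A)
    (h2 : ∀ i j, |((u i * v j - v i * u j : ℤ) : ℝ)| ≤ B) :
    |((D4 g n u v : ℤ) : ℝ)| ≤ 2 * A ^ 2 * B ^ 2 := by
  have hA : 0 ≤ A := le_trans (abs_nonneg _) (h1 0 0)
  have hB : 0 ≤ B := le_trans (abs_nonneg _) (h2 0 0)
  have key : ∀ a b c d : ℝ, |a| ≤ A → |b| ≤ A → |c| ≤ B → |d| ≤ B →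
      |a * b * (c * d)| ≤ A ^ 2 * B ^ 2 := by
    intro a b c d ha hb hc hd
    rw [abs_mul, abs_mul, abs_mul, pow_two, pow_two]
    gcongr
  have h3 : ((D4 g n u v : ℤ) : ℝ) =
      ((g 0 * n 1 - n 0 * g 1 : ℤ) : ℝ) * ((g 2 * n 3 - n 2 * g 3 : ℤ) : ℝ) *
      (((u 0 * v 2 - v 0 * u 2 : ℤ) : ℝ) * ((u 1 * v 3 - v 1 * u 3 : ℤ) : ℝ)) -
    ((g 0 * n 2 - n 0 * g 2 : ℤ) : ℝ) * ((g 1 * n 3 - n 1 * g 3 : ℤ) : ℝ) *
      (((u 0 * v 1 - v 0 * u 1 : ℤ) : ℝ) * ((u 2 * v 3 - v 2 * u 3 : ℤ) : ℝ)) := by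
    unfold D4
    push_cast
    ring
  rw [h3]
  refine le_trans (abs_sub _ _) ?_
  have e1 := key _ _ _ _ (h1 0 1) (h1 2 3) (h2 0 2) (h2 1 3)
  have e2 := key _ _ _ _ (h1 0 2) (h1 1 3) (h2 0 1) (h2 2 3)
  linarith

/-- the `2 × 2` minors in a dyadic class -/
theorem wd_size (s t A M x y x' y' : ℝ) (hs : 0 < s) (ht : 0 < t) (hM : 0 < M)
    (h1 : |(x * s - y * t) * (x * s + y * t)| ≤ A) (h2 : |(x' * s - y' * t) * (x' * s + y' * t)| ≤ A)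
    (h3 : M ≤ |x * s + y * t|) (h4 : |x * s + y * t| ≤ 2 * M)
    (h5 : M ≤ |x' * s + y' * t|) (h6 : |x' * s + y' * t| ≤ 2 * M) :
    |x * y' - y * x'| ≤ 2 * A / (s * t) := by
  have e1 : |x * s - y * t| ≤ A / M := by
    rw [le_div_iff₀ hM]
    rw [abs_mul] at h1
    exact le_trans (mul_le_mul_of_nonneg_left h3 (abs_nonneg _)) h1
  have e2 : |x' * s - y' * t| ≤ A / M := by
    rw [le_div_iff₀ hM]
    rw [abs_mul] at h2
    exact le_trans (mul_le_mul_of_nonneg_left h5 (abs_nonneg _)) h2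
  have hA : 0 ≤ A := le_trans (abs_nonneg _) h1
  have e3 : 2 * (s * t) * (x * y' - y * x') =
      (x * s - y * t) * (x' * s + y' * t) - (x * s + y * t) * (x' * s - y' * t) := by ring
  have e4 : 2 * (s * t) * |x * y' - y * x'| ≤ 4 * A := by
    have h7 : |2 * (s * t) * (x * y' - y * x')| = 2 * (s * t) * |x * y' - y * x'| := by
      rw [abs_mul, abs_of_pos (by positivity)]
    rw [← h7, e3]
    refine le_trans (abs_sub _ _) ?_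
    rw [abs_mul, abs_mul]
    have h8 : |x * s - y * t| * |x' * s + y' * t| ≤ A / M * (2 * M) := by gcongr
    have h9 : |x * s + y * t| * |x' * s - y' * t| ≤ 2 * M * (A / M) := by gcongr
    have h10 : A / M * (2 * M) = 2 * A := by field_simp
    have h11 : 2 * M * (A / M) = 2 * A := by field_simp
    linarith
  rw [le_div_iff₀ (by positivity)]
  linarith

end Pool.Agent.helper8.ZDM
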